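import Pool.Agent.Helper70_PDS.Stmts

/-! PDS: blocks. The vertex set `Fin K × Fin w`, heights `s + w k`, counting lemmas. -/

namespace PDS.H50

open Multiset

/-- height -/
def hh {K w : ℕ} (p : Fin K × Fin w) : ℕ := p.2 + w * p.1

theorem hh_lt {K w : ℕ} (p q : Fin K × Fin w) :
    hh p < hh q ↔ (p.1 : ℕ) < q.1 ∨ ((p.1 : ℕ) = q.1 ∧ (p.2 : ℕ) < q.2) := by
  unfold hh
  have h1 := p.2.isLt
  have h2 := q.2.isLt
  rcases lt_trichotomy (p.1 : ℕ) q.1 with h | h | h
  · have h3 : w * ((p.1 : ℕ) + 1) ≤ w * q.1 := Nat.mul_le_mul_left _ h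
    rw [mul_add, mul_one] at h3
    constructor
    · intro _; exact Or.inl h
    · intro _; omega
  · rw [h]
    constructor
    · intro h3; right; exact ⟨rfl, by omega⟩
    · rintro (h3 | ⟨_, h3⟩) <;> omega
  · have h3 : w * ((q.1 : ℕ) + 1) ≤ w * p.1 := Nat.mul_le_mul_left _ h
    rw [mul_add, mul_one] at h3
    constructor
    · intro h4; omega
    · rintro (h4 | ⟨h4, _⟩) <;> omega

theorem hh_le {K w : ℕ} (p q : Fin K × Fin w) :
    hh p ≤ hh q ↔ (p.1 : ℕ) < q.1 ∨ ((p.1 : ℕ) = q.1 ∧ (p.2 : ℕ) ≤ q.2) := by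
  rw [← not_lt, hh_lt]
  omega

theorem hh_succ {K w : ℕ} (p q : Fin K × Fin w) :
    hh q = hh p + 1 ↔ ((p.1 : ℕ) = q.1 ∧ (q.2 : ℕ) = p.2 + 1) ∨
      ((q.1 : ℕ) = p.1 + 1 ∧ (p.2 : ℕ) + 1 = w ∧ (q.2 : ℕ) = 0) := by
  unfold hh
  have h1 := p.2.isLt
  have h2 := q.2.isLt
  constructor
  · intro h
    rcases lt_trichotomy (p.1 : ℕ) q.1 with h3 | h3 | h3
    · right
      obtain ⟨d, hd⟩ := Nat.exists_eq_add_of_lt h3
      rw [hd] at h
      have e : w * ((p.1 : ℕ) + d + 1) = w * p.1 + w * d + w := by ring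
      rw [e] at h
      rcases Nat.eq_zero_or_pos d with h4 | h4
      · subst h4
        simp only [mul_zero] at h
        omega
      · have : w ≤ w * d := Nat.le_mul_of_pos_right _ h4
        omega
    · left
      rw [h3] at h ⊢
      omega
    · have h4 : w * ((q.1 : ℕ) + 1) ≤ w * p.1 := Nat.mul_le_mul_left _ h3
      rw [mul_add, mul_one] at h4
      omega
  · rintro (⟨h3, h4⟩ | ⟨h3, h4, h5⟩)
    · rw [h3, h4]; omega
    · rw [h3, h5, mul_add, mul_one]; omega

theorem hh_inj {K w : ℕ} : Function.Injective (hh : Fin K × Fin w → ℕ) := by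
  intro p q h
  have h1 := (hh_le p q).mp h.le
  have h2 := (hh_le q p).mp h.ge
  apply Prod.ext <;> apply Fin.ext <;> omega

/-- counting in a row -/
theorem nc_row {K w : ℕ} (k : ℕ) (S : ℕ → Prop) [DecidablePred S] :
    {r : Fin K × Fin w | (r.1 : ℕ) = k ∧ S r.2}.ncard =
      if k < K then ((Finset.range w).filter S).card else 0 := by
  split_ifs with hk
  · have e : {r : Fin K × Fin w | (r.1 : ℕ) = k ∧ S r.2} =
        (fun s : Fin w => ((⟨k, hk⟩ : Fin K), s)) '' {s : Fin w | S s} := by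
      ext ⟨a, s⟩
      simp only [Set.mem_ofPred_eq, Set.mem_image, Prod.mk.injEq]
      constructor
      · rintro ⟨h1, h2⟩
        exact ⟨s, h2, Fin.ext h1.symm, rfl⟩
      · rintro ⟨s', h2, rfl, rfl⟩
        exact ⟨rfl, h2⟩
    rw [e, Set.ncard_image_of_injective _ (fun x y h => (Prod.mk.inj h).2)]
    have e2 : ((Finset.range w).filter S : Set ℕ) = (fun s : Fin w => (s : ℕ)) '' {s : Fin w | S s} := by
      ext x
      simp only [Finset.coe_filter, Finset.mem_range, Set.mem_ofPred_eq, Set.mem_image]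
      constructor
      · rintro ⟨h1, h2⟩
        exact ⟨⟨x, h1⟩, h2, rfl⟩
      · rintro ⟨s, h2, rfl⟩
        exact ⟨s.isLt, h2⟩
    rw [← Set.ncard_coe_finset, e2, Set.ncard_image_of_injective _ Fin.val_injective]
  · rw [Set.ncard_eq_zero]
    ext ⟨a, s⟩
    simp only [Set.mem_ofPred_eq, Set.mem_empty_iff_false, iff_false]
    rintro ⟨h1, _⟩
    exact hk (h1 ▸ a.isLt)

/-- counting in two different rows -/
theorem nc_two {K w : ℕ} (k k' : ℕ) (hk : k ≠ k') (S S' : ℕ → Prop) [DecidablePred S]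
    [DecidablePred S'] :
    {r : Fin K × Fin w | ((r.1 : ℕ) = k ∧ S r.2) ∨ ((r.1 : ℕ) = k' ∧ S' r.2)}.ncard =
      (if k < K then ((Finset.range w).filter S).card else 0) +
        (if k' < K then ((Finset.range w).filter S').card else 0) := by
  rw [← nc_row k S, ← nc_row k' S', ← Set.ncard_union_eq _ (Set.toFinite _) (Set.toFinite _)]
  · rfl
  · rw [Set.disjoint_left]
    rintro r ⟨h1, _⟩ ⟨h2, _⟩
    exact hk (h1 ▸ h2)

/-- counting in a row and the next one -/
theorem nc_next {K w : ℕ} (k : Fin K) (S S' : ℕ → Prop) [DecidablePred S] [DecidablePred S'] :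
    {r : Fin K × Fin w | ((r.1 : ℕ) = k ∧ S r.2) ∨ ((r.1 : ℕ) = k + 1 ∧ S' r.2)}.ncard =
      ((Finset.range w).filter S).card +
        (if (k : ℕ) + 1 < K then ((Finset.range w).filter S').card else 0) := by
  rw [nc_two (k : ℕ) (k + 1) (by omega), if_pos k.isLt]

/-- counting in a row and the previous one -/
theorem nc_prev {K w : ℕ} (k : Fin K) (S S' : ℕ → Prop) [DecidablePred S] [DecidablePred S'] :
    {r : Fin K × Fin w | ((r.1 : ℕ) = k ∧ S r.2) ∨ ((k : ℕ) = r.1 + 1 ∧ S' r.2)}.ncard =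
      ((Finset.range w).filter S).card +
        (if 0 < (k : ℕ) then ((Finset.range w).filter S').card else 0) := by
  have hk := k.isLt
  split_ifs with h
  · have e : {r : Fin K × Fin w | ((r.1 : ℕ) = k ∧ S r.2) ∨ ((k : ℕ) = r.1 + 1 ∧ S' r.2)} =
        {r : Fin K × Fin w | ((r.1 : ℕ) = k ∧ S r.2) ∨ ((r.1 : ℕ) = (k : ℕ) - 1 ∧ S' r.2)} := by
      ext r
      simp only [Set.mem_ofPred_eq]
      have : ((k : ℕ) = r.1 + 1) ↔ ((r.1 : ℕ) = (k : ℕ) - 1) := by omega
      rw [this]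
    rw [e, nc_two (k : ℕ) ((k : ℕ) - 1) (by omega), if_pos k.isLt, if_pos (by omega)]
  · have e : {r : Fin K × Fin w | ((r.1 : ℕ) = k ∧ S r.2) ∨ ((k : ℕ) = r.1 + 1 ∧ S' r.2)} =
        {r : Fin K × Fin w | ((r.1 : ℕ) = k ∧ S r.2)} := by
      ext r
      simp only [Set.mem_ofPred_eq]
      constructor
      · rintro (h1 | ⟨h1, _⟩)
        · exact h1
        · omega
      · exact Or.inl
    rw [e, nc_row, if_pos k.isLt, add_zero]

/-- cardinality of intervals -/
theorem card_Icc (w a b : ℕ) (S : ℕ → Prop) [DecidablePred S] (hb : b ≤ w)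
    (h : ∀ s, s < w → (S s ↔ a ≤ s ∧ s < b)) : ((Finset.range w).filter S).card = b - a := by
  have : (Finset.range w).filter S = Finset.Ico a b := by
    ext s
    rw [Finset.mem_filter, Finset.mem_range, Finset.mem_Ico]
    constructor
    · rintro ⟨h1, h2⟩
      exact (h s h1).mp h2
    · intro h1
      exact ⟨by omega, (h s (by omega)).mpr h1⟩
  rw [this, Nat.card_Ico]

/-- two values -/
theorem map_ite {α : Type} (s : Finset α) (P : α → Prop) [DecidablePred P] (x y : ℕ) :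
    s.val.map (fun v => if P v then x else y) =
      replicate (s.filter P).card x + replicate (s.filter fun v => ¬ P v).card y := by
  conv_lhs => rw [← Multiset.filter_add_not P s.val]
  rw [Multiset.map_add]
  congr 1
  · rw [Multiset.map_congr rfl (g := fun _ => x), Multiset.map_const']
    · rfl
    · intro v hv
      rw [Multiset.mem_filter] at hv
      exact if_pos hv.2
  · rw [Multiset.map_congr rfl (g := fun _ => y), Multiset.map_const']
    · rfl
    · intro v hv
      rw [Multiset.mem_filter] at hv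
      exact if_neg hv.2

/-- the missing degree at the two ends, divided by two -/
def ee {K b : ℕ} (p : Fin K × Fin (b + 2)) : ℕ :=
  (if (p.1 : ℕ) = 0 ∧ (p.2 : ℕ) = 0 then 1 else 0) +
    (if (p.1 : ℕ) + 1 = K ∧ (p.2 : ℕ) = b + 1 then 1 else 0)

theorem sum_ee {K b : ℕ} (hK : 0 < K) :
    ∑ v : Fin 4 × (Fin K × Fin (b + 2)), ee v.2 = 8 := by
  rw [Fintype.sum_prod_type]
  simp only [Finset.sum_const, Finset.card_univ, Fintype.card_fin, smul_eq_mul]
  have : ∑ p : Fin K × Fin (b + 2), ee p = 2 := by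
    unfold ee
    rw [Finset.sum_add_distrib]
    have h1 : ∑ p : Fin K × Fin (b + 2), (if (p.1 : ℕ) = 0 ∧ (p.2 : ℕ) = 0 then 1 else 0) = 1 := by
      rw [Finset.sum_eq_single ((⟨0, hK⟩ : Fin K), (⟨0, by omega⟩ : Fin (b + 2)))]
      · simp
      · rintro ⟨k, s⟩ _ hne
        rw [if_neg]
        rintro ⟨h1, h2⟩
        exact hne (Prod.ext (Fin.ext h1) (Fin.ext h2))
      · intro h; exact absurd (Finset.mem_univ _) h
    have h2 : ∑ p : Fin K × Fin (b + 2),
        (if (p.1 : ℕ) + 1 = K ∧ (p.2 : ℕ) = b + 1 then 1 else 0) = 1 := by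
      rw [Finset.sum_eq_single ((⟨K - 1, by omega⟩ : Fin K), (⟨b + 1, by omega⟩ : Fin (b + 2)))]
      · rw [if_pos]
        exact ⟨by simp only []; omega, rfl⟩
      · rintro ⟨k, s⟩ _ hne
        rw [if_neg]
        rintro ⟨h1, h2⟩
        simp only [] at h1 h2
        exact hne (Prod.ext (Fin.ext (by simp only []; omega)) (Fin.ext h2))
      · intro h; exact absurd (Finset.mem_univ _) h
    rw [h1, h2]
  rw [this]

theorem card_poles (K b : ℕ) :
    ((Finset.univ : Finset (Fin 4 × (Fin K × Fin (b + 2)))).filter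
      fun v => (v.2.2 : ℕ) = 0 ∨ (v.2.2 : ℕ) = b + 1).card = 8 * K ∧
    ((Finset.univ : Finset (Fin 4 × (Fin K × Fin (b + 2)))).filter
      fun v => ¬ ((v.2.2 : ℕ) = 0 ∨ (v.2.2 : ℕ) = b + 1)).card = 4 * K * b := by
  have h1 : ((Finset.univ : Finset (Fin 4 × (Fin K × Fin (b + 2)))).filter
      fun v => (v.2.2 : ℕ) = 0 ∨ (v.2.2 : ℕ) = b + 1).card = 8 * K := by
    have e : ((Finset.univ : Finset (Fin 4 × (Fin K × Fin (b + 2)))).filter
        fun v => (v.2.2 : ℕ) = 0 ∨ (v.2.2 : ℕ) = b + 1) =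
        (Finset.univ : Finset (Fin 4)) ×ˢ ((Finset.univ : Finset (Fin K)) ×ˢ
          ({⟨0, by omega⟩, ⟨b + 1, by omega⟩} : Finset (Fin (b + 2)))) := by
      ext ⟨c, k, s⟩
      simp only [Finset.mem_filter, Finset.mem_univ, true_and, Finset.mem_product,
        Finset.mem_insert, Finset.mem_singleton, Fin.ext_iff]
    rw [e, Finset.card_product, Finset.card_product, Finset.card_univ, Finset.card_univ,
      Fintype.card_fin, Fintype.card_fin, Finset.card_pair]
    · ring
    · intro h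
      rw [Fin.ext_iff] at h
      simp at h
  refine ⟨h1, ?_⟩
  have h2 := Finset.card_filter_add_card_filter_not
    (s := (Finset.univ : Finset (Fin 4 × (Fin K × Fin (b + 2)))))
    (fun v => (v.2.2 : ℕ) = 0 ∨ (v.2.2 : ℕ) = b + 1)
  rw [h1, Finset.card_univ, Fintype.card_prod, Fintype.card_prod, Fintype.card_fin,
    Fintype.card_fin, Fintype.card_fin] at h2
  have e : 4 * (K * (b + 2)) = 4 * K * b + 8 * K := by ring
  omega

/-- the graph of a cylinder whose ends have to be raised -/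
theorem assemble (i kk : ℕ) (hR : Raise 2 i kk) (hF : FillStmt) (b K : ℕ) (hK : 0 < K)
    (C : Cyl (Fin K × Fin (b + 2)))
    (hdeg : ∀ c p, dg C.graph (c, p) + 2 * ee p =
      if (p.2 : ℕ) = 0 ∨ (p.2 : ℕ) = b + 1 then b + 6 else i) :
    Rz (replicate (8 * K) (b + 6) + replicate (4 * K * b + 8 * kk) i) := by
  have h0 : Rz ((Finset.univ : Finset (Fin 4 × (Fin K × Fin (b + 2)))).val.map (dg C.graph) + 0) := by
    rw [add_zero]
    exact ⟨_, inferInstance, C.graph, C.book, rfl⟩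
  have h1 := hF 2 i kk hR _ (dg C.graph) (fun v => ee v.2) 0 h0
  rw [sum_ee hK] at h1
  have e : (fun v : Fin 4 × (Fin K × Fin (b + 2)) => dg C.graph v + 2 * ee v.2) =
      fun v => if (v.2.2 : ℕ) = 0 ∨ (v.2.2 : ℕ) = b + 1 then b + 6 else i := by
    funext ⟨c, p⟩
    exact hdeg c p
  rw [e, map_ite, (card_poles K b).1, (card_poles K b).2, add_zero] at h1
  rw [show 4 * K * b + 8 * kk = 4 * K * b + kk * 8 by ring, Multiset.replicate_add, ← add_assoc]
  exact h1

theorem rz_zero : Rz 0 := by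
  refine ⟨Empty, inferInstance, ⊥, ⟨⟨fun e => e.elim, fun e => e.elim, fun e => e.elim, fun e => e.elim,
    fun e => e.elim⟩⟩, ?_⟩
  simp

end PDS.H50
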