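import Pool.Agent.Helper50_PDS.Blk

/-! PDS: the tubes with vertices of degree 3, even blocks. -/

namespace PDS.H50

open Multiset

/-- the cylinder F3E -/
def F3E (K b : ℕ) : Cyl (Fin K × Fin (b + 2)) where
  h := hh
  E _ p q := ((q.1 : ℕ) = p.1 ∧ ((p.2 : ℕ) = 0 ∧ (q.2 : ℕ) = 0 ∨ (p.2 : ℕ) = b + 1 ∧
      ((q.2 : ℕ) = 0 ∨ (q.2 : ℕ) = b + 1))) ∨
    ((p.1 : ℕ) = q.1 + 1 ∧ (p.2 : ℕ) = 0 ∧ (q.2 : ℕ) = b + 1)
  A _ p q := ((q.1 : ℕ) = p.1 ∧ ((p.2 : ℕ) = 0 ∧ 1 ≤ (q.2 : ℕ) ∨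
      (p.2 : ℕ) % 2 = 1 ∧ (q.2 : ℕ) = p.2 + 1 ∧ (q.2 : ℕ) ≤ b)) ∨
    ((q.1 : ℕ) = p.1 + 1 ∧ (p.2 : ℕ) = b + 1 ∧ (q.2 : ℕ) = 0)
  B _ p q := (q.1 : ℕ) = p.1 ∧ 1 ≤ (p.2 : ℕ) ∧ (p.2 : ℕ) ≤ b ∧ (q.2 : ℕ) = b + 1
  inj := hh_inj
  mono := by
    intro c p q p' q' h1 h2 h3
    rw [hh_lt] at h3
    rw [hh_le]
    have a1 := p.2.isLt
    have a2 := q.2.isLt
    have a3 := p'.2.isLt
    have a4 := q'.2.isLt
    omega
  A_lt := by
    intro c p q h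
    rw [hh_lt]
    omega
  B_lt := by
    intro c p q h
    rw [hh_lt]
    omega
  AB := by
    intro c p q h1 h2
    omega
  A_E := by
    intro c p q r x h1 h2 h3 h4
    rw [hh_lt] at h2 h3
    have a1 := p.2.isLt
    have a2 := q.2.isLt
    have a3 := r.2.isLt
    omega
  B_E := by
    intro c p q r x h1 h2 h3 h4
    rw [hh_lt] at h2 h3
    have a1 := p.2.isLt
    have a2 := q.2.isLt
    have a3 := r.2.isLt
    omega
  A_A := by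
    intro c p q p' q' h1 h2 h3 h4
    rw [hh_lt] at h3 h4
    rw [hh_le]
    have a1 := p.2.isLt
    have a2 := q.2.isLt
    have a3 := p'.2.isLt
    have a4 := q'.2.isLt
    omega
  B_B := by
    intro c p q p' q' h1 h2 h3 h4
    rw [hh_lt] at h3 h4
    rw [hh_le]
    have a1 := p.2.isLt
    have a2 := q.2.isLt
    have a3 := p'.2.isLt
    have a4 := q'.2.isLt
    omega

theorem F3E_deg (K b : ℕ) (hb : b % 2 = 0) (c : Fin 4) (p : Fin K × Fin (b + 2)) :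
    dg (F3E K b).graph (c, p) + 2 * ee p =
      if (p.2 : ℕ) = 0 ∨ (p.2 : ℕ) = b + 1 then b + 6 else 3 := by
  obtain ⟨k, s⟩ := p
  have hk := k.isLt
  have hs := s.isLt
  rw [Cyl.degree]
  simp only [F3E]
  -- A out
  have e1 : {r : Fin K × Fin (b + 2) | ((r.1 : ℕ) = k ∧ ((s : ℕ) = 0 ∧ 1 ≤ (r.2 : ℕ) ∨
      (s : ℕ) % 2 = 1 ∧ (r.2 : ℕ) = s + 1 ∧ (r.2 : ℕ) ≤ b)) ∨
      ((r.1 : ℕ) = k + 1 ∧ (s : ℕ) = b + 1 ∧ (r.2 : ℕ) = 0)}.ncard =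
      (if (s : ℕ) = 0 then b + 1 else if (s : ℕ) = b + 1 then (if (k : ℕ) + 1 < K then 1 else 0)
        else if (s : ℕ) % 2 = 1 then 1 else 0) := by
    rw [nc_next k (fun x => (s : ℕ) = 0 ∧ 1 ≤ x ∨ (s : ℕ) % 2 = 1 ∧ x = (s : ℕ) + 1 ∧ x ≤ b)
      (fun x => (s : ℕ) = b + 1 ∧ x = 0)]
    have c2 : ((Finset.range (b + 2)).filter fun x => (s : ℕ) = b + 1 ∧ x = 0).card =
        if (s : ℕ) = b + 1 then 1 else 0 := by
      by_cases h : (s : ℕ) = b + 1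
      · rw [card_Icc (b + 2) 0 1 _ (by omega) (by intro x hx; omega), if_pos h]
      · rw [card_Icc (b + 2) 0 0 _ (by omega) (by intro x hx; omega), if_neg h]
    have c1 : ((Finset.range (b + 2)).filter fun x => (s : ℕ) = 0 ∧ 1 ≤ x ∨
        (s : ℕ) % 2 = 1 ∧ x = (s : ℕ) + 1 ∧ x ≤ b).card =
        if (s : ℕ) = 0 then b + 1 else if (s : ℕ) ≤ b ∧ (s : ℕ) % 2 = 1 then 1 else 0 := by
      by_cases h : (s : ℕ) = 0
      · rw [card_Icc (b + 2) 1 (b + 2) _ (by omega) (by intro x hx; omega), if_pos h]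
        omega
      · by_cases h' : (s : ℕ) ≤ b ∧ (s : ℕ) % 2 = 1
        · rw [card_Icc (b + 2) (s + 1) (s + 2) _ (by omega) (by intro x hx; omega), if_neg h,
            if_pos h']
          omega
        · rw [card_Icc (b + 2) 0 0 _ (by omega) (by intro x hx; omega), if_neg h, if_neg h']
    rw [c1, c2]
    split_ifs <;> omega
  -- A in
  have e2 : {r : Fin K × Fin (b + 2) | ((k : ℕ) = r.1 ∧ ((r.2 : ℕ) = 0 ∧ 1 ≤ (s : ℕ) ∨
      (r.2 : ℕ) % 2 = 1 ∧ (s : ℕ) = r.2 + 1 ∧ (s : ℕ) ≤ b)) ∨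
      ((k : ℕ) = r.1 + 1 ∧ (r.2 : ℕ) = b + 1 ∧ (s : ℕ) = 0)}.ncard =
      (if (s : ℕ) = 0 then (if 0 < (k : ℕ) then 1 else 0) else if (s : ℕ) = b + 1 then 1 else
        if (s : ℕ) % 2 = 1 then 1 else 2) := by
    have e : {r : Fin K × Fin (b + 2) | ((k : ℕ) = r.1 ∧ ((r.2 : ℕ) = 0 ∧ 1 ≤ (s : ℕ) ∨
        (r.2 : ℕ) % 2 = 1 ∧ (s : ℕ) = r.2 + 1 ∧ (s : ℕ) ≤ b)) ∨
        ((k : ℕ) = r.1 + 1 ∧ (r.2 : ℕ) = b + 1 ∧ (s : ℕ) = 0)} =
        {r : Fin K × Fin (b + 2) | ((r.1 : ℕ) = k ∧ ((r.2 : ℕ) = 0 ∧ 1 ≤ (s : ℕ) ∨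
        (r.2 : ℕ) % 2 = 1 ∧ (s : ℕ) = r.2 + 1 ∧ (s : ℕ) ≤ b)) ∨
        ((k : ℕ) = r.1 + 1 ∧ ((r.2 : ℕ) = b + 1 ∧ (s : ℕ) = 0))} := by
      ext r
      simp only [Set.mem_ofPred_eq]
      omega
    rw [e, nc_prev k (fun x => x = 0 ∧ 1 ≤ (s : ℕ) ∨ x % 2 = 1 ∧ (s : ℕ) = x + 1 ∧ (s : ℕ) ≤ b)
      (fun x => x = b + 1 ∧ (s : ℕ) = 0)]
    have c2 : ((Finset.range (b + 2)).filter fun x => x = b + 1 ∧ (s : ℕ) = 0).card =
        if (s : ℕ) = 0 then 1 else 0 := by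
      by_cases h : (s : ℕ) = 0
      · rw [card_Icc (b + 2) (b + 1) (b + 2) _ (by omega) (by intro x hx; omega), if_pos h]
        omega
      · rw [card_Icc (b + 2) 0 0 _ (by omega) (by intro x hx; omega), if_neg h]
    have c1 : ((Finset.range (b + 2)).filter fun x => x = 0 ∧ 1 ≤ (s : ℕ) ∨
        x % 2 = 1 ∧ (s : ℕ) = x + 1 ∧ (s : ℕ) ≤ b).card =
        if (s : ℕ) = 0 then 0 else if (s : ℕ) ≤ b ∧ (s : ℕ) % 2 = 0 then 2 else 1 := by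
      by_cases h : (s : ℕ) = 0
      · rw [card_Icc (b + 2) 0 0 _ (by omega) (by intro x hx; omega), if_pos h]
      · by_cases h' : (s : ℕ) ≤ b ∧ (s : ℕ) % 2 = 0
        · rw [if_neg h, if_pos h']
          have e' : (Finset.range (b + 2)).filter (fun x => x = 0 ∧ 1 ≤ (s : ℕ) ∨
              x % 2 = 1 ∧ (s : ℕ) = x + 1 ∧ (s : ℕ) ≤ b) = {0, (s : ℕ) - 1} := by
            ext x
            simp only [Finset.mem_filter, Finset.mem_range, Finset.mem_insert,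
              Finset.mem_singleton]
            omega
          rw [e', Finset.card_pair (by omega)]
        · rw [card_Icc (b + 2) 0 1 _ (by omega) (by intro x hx; omega), if_neg h, if_neg h']
    rw [c1, c2]
    split_ifs <;> omega
  -- B out
  have e3 : {r : Fin K × Fin (b + 2) | (r.1 : ℕ) = k ∧ 1 ≤ (s : ℕ) ∧ (s : ℕ) ≤ b ∧
      (r.2 : ℕ) = b + 1}.ncard = (if (s : ℕ) = 0 ∨ (s : ℕ) = b + 1 then 0 else 1) := by
    rw [nc_row (k : ℕ) (fun x => 1 ≤ (s : ℕ) ∧ (s : ℕ) ≤ b ∧ x = b + 1), if_pos hk]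
    by_cases h : (s : ℕ) = 0 ∨ (s : ℕ) = b + 1
    · rw [card_Icc (b + 2) 0 0 _ (by omega) (by intro x hx; omega), if_pos h]
    · rw [card_Icc (b + 2) (b + 1) (b + 2) _ (by omega) (by intro x hx; omega), if_neg h]
      omega
  -- B in
  have e4 : {r : Fin K × Fin (b + 2) | (k : ℕ) = r.1 ∧ 1 ≤ (r.2 : ℕ) ∧ (r.2 : ℕ) ≤ b ∧
      (s : ℕ) = b + 1}.ncard = (if (s : ℕ) = b + 1 then b else 0) := by
    have e : {r : Fin K × Fin (b + 2) | (k : ℕ) = r.1 ∧ 1 ≤ (r.2 : ℕ) ∧ (r.2 : ℕ) ≤ b ∧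
        (s : ℕ) = b + 1} = {r : Fin K × Fin (b + 2) | (r.1 : ℕ) = k ∧ (1 ≤ (r.2 : ℕ) ∧
        (r.2 : ℕ) ≤ b ∧ (s : ℕ) = b + 1)} := by
      ext r
      simp only [Set.mem_ofPred_eq]
      omega
    rw [e, nc_row (k : ℕ) (fun x => 1 ≤ x ∧ x ≤ b ∧ (s : ℕ) = b + 1), if_pos hk]
    by_cases h : (s : ℕ) = b + 1
    · rw [card_Icc (b + 2) 1 (b + 1) _ (by omega) (by intro x hx; omega), if_pos h]
      omega
    · rw [card_Icc (b + 2) 0 0 _ (by omega) (by intro x hx; omega), if_neg h]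
  -- E out
  have e5 : {r : Fin K × Fin (b + 2) | ((r.1 : ℕ) = k ∧ ((s : ℕ) = 0 ∧ (r.2 : ℕ) = 0 ∨
      (s : ℕ) = b + 1 ∧ ((r.2 : ℕ) = 0 ∨ (r.2 : ℕ) = b + 1))) ∨
      ((k : ℕ) = r.1 + 1 ∧ (s : ℕ) = 0 ∧ (r.2 : ℕ) = b + 1)}.ncard =
      (if (s : ℕ) = 0 then 1 + (if 0 < (k : ℕ) then 1 else 0) else
        if (s : ℕ) = b + 1 then 2 else 0) := by
    rw [nc_prev k (fun x => (s : ℕ) = 0 ∧ x = 0 ∨ (s : ℕ) = b + 1 ∧ (x = 0 ∨ x = b + 1))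
      (fun x => (s : ℕ) = 0 ∧ x = b + 1)]
    have c2 : ((Finset.range (b + 2)).filter fun x => (s : ℕ) = 0 ∧ x = b + 1).card =
        if (s : ℕ) = 0 then 1 else 0 := by
      by_cases h : (s : ℕ) = 0
      · rw [card_Icc (b + 2) (b + 1) (b + 2) _ (by omega) (by intro x hx; omega), if_pos h]
        omega
      · rw [card_Icc (b + 2) 0 0 _ (by omega) (by intro x hx; omega), if_neg h]
    have c1 : ((Finset.range (b + 2)).filter fun x => (s : ℕ) = 0 ∧ x = 0 ∨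
        (s : ℕ) = b + 1 ∧ (x = 0 ∨ x = b + 1)).card =
        if (s : ℕ) = 0 then 1 else if (s : ℕ) = b + 1 then 2 else 0 := by
      by_cases h : (s : ℕ) = 0
      · rw [card_Icc (b + 2) 0 1 _ (by omega) (by intro x hx; omega), if_pos h]
      · by_cases h' : (s : ℕ) = b + 1
        · rw [if_neg h, if_pos h']
          have e' : (Finset.range (b + 2)).filter (fun x => (s : ℕ) = 0 ∧ x = 0 ∨
              (s : ℕ) = b + 1 ∧ (x = 0 ∨ x = b + 1)) = {0, b + 1} := by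
            ext x
            simp only [Finset.mem_filter, Finset.mem_range, Finset.mem_insert,
              Finset.mem_singleton]
            omega
          rw [e', Finset.card_pair (by omega)]
        · rw [card_Icc (b + 2) 0 0 _ (by omega) (by intro x hx; omega), if_neg h, if_neg h']
    rw [c1, c2]
    split_ifs <;> omega
  -- E in
  have e6 : {r : Fin K × Fin (b + 2) | ((k : ℕ) = r.1 ∧ ((r.2 : ℕ) = 0 ∧ (s : ℕ) = 0 ∨
      (r.2 : ℕ) = b + 1 ∧ ((s : ℕ) = 0 ∨ (s : ℕ) = b + 1))) ∨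
      ((r.1 : ℕ) = k + 1 ∧ (r.2 : ℕ) = 0 ∧ (s : ℕ) = b + 1)}.ncard =
      (if (s : ℕ) = 0 then 2 else if (s : ℕ) = b + 1 then
        1 + (if (k : ℕ) + 1 < K then 1 else 0) else 0) := by
    have e : {r : Fin K × Fin (b + 2) | ((k : ℕ) = r.1 ∧ ((r.2 : ℕ) = 0 ∧ (s : ℕ) = 0 ∨
        (r.2 : ℕ) = b + 1 ∧ ((s : ℕ) = 0 ∨ (s : ℕ) = b + 1))) ∨
        ((r.1 : ℕ) = k + 1 ∧ (r.2 : ℕ) = 0 ∧ (s : ℕ) = b + 1)} =
        {r : Fin K × Fin (b + 2) | ((r.1 : ℕ) = k ∧ ((r.2 : ℕ) = 0 ∧ (s : ℕ) = 0 ∨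
        (r.2 : ℕ) = b + 1 ∧ ((s : ℕ) = 0 ∨ (s : ℕ) = b + 1))) ∨
        ((r.1 : ℕ) = k + 1 ∧ ((r.2 : ℕ) = 0 ∧ (s : ℕ) = b + 1))} := by
      ext r
      simp only [Set.mem_ofPred_eq]
      omega
    rw [e, nc_next k (fun x => x = 0 ∧ (s : ℕ) = 0 ∨ x = b + 1 ∧ ((s : ℕ) = 0 ∨ (s : ℕ) = b + 1))
      (fun x => x = 0 ∧ (s : ℕ) = b + 1)]
    have c2 : ((Finset.range (b + 2)).filter fun x => x = 0 ∧ (s : ℕ) = b + 1).card =
        if (s : ℕ) = b + 1 then 1 else 0 := by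
      by_cases h : (s : ℕ) = b + 1
      · rw [card_Icc (b + 2) 0 1 _ (by omega) (by intro x hx; omega), if_pos h]
      · rw [card_Icc (b + 2) 0 0 _ (by omega) (by intro x hx; omega), if_neg h]
    have c1 : ((Finset.range (b + 2)).filter fun x => x = 0 ∧ (s : ℕ) = 0 ∨
        x = b + 1 ∧ ((s : ℕ) = 0 ∨ (s : ℕ) = b + 1)).card =
        if (s : ℕ) = 0 then 2 else if (s : ℕ) = b + 1 then 1 else 0 := by
      by_cases h : (s : ℕ) = 0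
      · rw [if_pos h]
        have e' : (Finset.range (b + 2)).filter (fun x => x = 0 ∧ (s : ℕ) = 0 ∨
            x = b + 1 ∧ ((s : ℕ) = 0 ∨ (s : ℕ) = b + 1)) = {0, b + 1} := by
          ext x
          simp only [Finset.mem_filter, Finset.mem_range, Finset.mem_insert,
            Finset.mem_singleton]
          omega
        rw [e', Finset.card_pair (by omega)]
      · by_cases h' : (s : ℕ) = b + 1
        · rw [card_Icc (b + 2) (b + 1) (b + 2) _ (by omega) (by intro x hx; omega), if_neg h,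
            if_pos h']
          omega
        · rw [card_Icc (b + 2) 0 0 _ (by omega) (by intro x hx; omega), if_neg h, if_neg h']
    rw [c1, c2]
    split_ifs <;> omega
  rw [e1, e2, e3, e4, e5, e6]
  unfold ee
  simp only []
  split_ifs <;> omega

theorem tube3E (hR : Raise 2 3 4) (hF : FillStmt) : ∀ b K : ℕ, b % 2 = 0 →
    ∃ a, cap 3 * a ≤ 8 * K * b + 250 ∧ Rz (replicate (8 * K) (b + 6) + replicate a 3) := by
  intro β K hb
  rcases Nat.eq_zero_or_pos K with rfl | hK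
  · refine ⟨0, by omega, ?_⟩
    simpa using rz_zero
  · refine ⟨4 * K * β + 8 * 4, ?_, assemble 3 4 hR hF β K hK (F3E K β) (F3E_deg K β hb)⟩
    have : cap 3 = 2 := rfl
    rw [this]
    have e : 2 * (4 * K * β + 8 * 4) = 8 * K * β + 64 := by ring
    omega

end PDS.H50
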