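import Pool.Agent.Helper50_PDS.Blk

/-! PDS: the tubes with vertices of degree 4. -/

namespace PDS.H50

open Multiset

/-- the cylinder F4 -/
def F4 (K b : ℕ) : Cyl (Fin K × Fin (b + 2)) where
  h := hh
  E _ p q := ((q.1 : ℕ) = p.1 ∧ ((q.2 : ℕ) = 0 ∨ (p.2 : ℕ) = b + 1)) ∨
    ((p.1 : ℕ) = q.1 + 1 ∧ (p.2 : ℕ) = 0 ∧ (q.2 : ℕ) = b + 1)
  A _ p q := hh q = hh p + 1
  B _ _ _ := False
  inj := hh_inj
  mono := by
    intro c p q p' q' h1 h2 h3
    rw [hh_lt] at h3
    rw [hh_le]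
    have a1 := p.2.isLt
    have a2 := q.2.isLt
    have a3 := p'.2.isLt
    have a4 := q'.2.isLt
    omega
  A_lt := by
    intro c p q h
    omega
  B_lt := by
    intro c p q h
    exact h.elim
  AB := by
    intro c p q _ h
    exact h
  A_E := by
    intro c p q r x h1 h2 h3
    omega
  B_E := by
    intro c p q r x h1
    exact h1.elim
  A_A := by
    intro c p q p' q' h1 _ h3 h4
    omega
  B_B := by
    intro c p q p' q' h1
    exact h1.elim

theorem F4_deg (K b : ℕ) (c : Fin 4) (p : Fin K × Fin (b + 2)) :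
    dg (F4 K b).graph (c, p) + 2 * ee p =
      if (p.2 : ℕ) = 0 ∨ (p.2 : ℕ) = b + 1 then b + 6 else 4 := by
  obtain ⟨k, s⟩ := p
  have hk := k.isLt
  have hs := s.isLt
  rw [Cyl.degree]
  simp only [F4]
  have e1 : {r : Fin K × Fin (b + 2) | hh r = hh (k, s) + 1}.ncard =
      (if (s : ℕ) = b + 1 then (if (k : ℕ) + 1 < K then 1 else 0) else 1) := by
    have e : {r : Fin K × Fin (b + 2) | hh r = hh (k, s) + 1} =
        {r : Fin K × Fin (b + 2) | ((r.1 : ℕ) = k ∧ (r.2 : ℕ) = s + 1) ∨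
          ((r.1 : ℕ) = k + 1 ∧ ((s : ℕ) = b + 1 ∧ (r.2 : ℕ) = 0))} := by
      ext r
      simp only [Set.mem_ofPred_eq]
      rw [hh_succ]
      simp only []
      omega
    rw [e, nc_next k (fun x => x = (s : ℕ) + 1) (fun x => (s : ℕ) = b + 1 ∧ x = 0)]
    by_cases h : (s : ℕ) = b + 1
    · rw [card_Icc (b + 2) 0 0 (fun x => x = (s : ℕ) + 1) (by omega) (by intro x hx; omega),
        card_Icc (b + 2) 0 1 (fun x => (s : ℕ) = b + 1 ∧ x = 0) (by omega) (by intro x hx; omega),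
        if_pos h]
      split_ifs <;> omega
    · rw [card_Icc (b + 2) (s + 1) (s + 2) (fun x => x = (s : ℕ) + 1) (by omega)
          (by intro x hx; omega),
        card_Icc (b + 2) 0 0 (fun x => (s : ℕ) = b + 1 ∧ x = 0) (by omega) (by intro x hx; omega),
        if_neg h]
      split_ifs <;> omega
  have e2 : {r : Fin K × Fin (b + 2) | hh (k, s) = hh r + 1}.ncard =
      (if (s : ℕ) = 0 then (if 0 < (k : ℕ) then 1 else 0) else 1) := by
    have e : {r : Fin K × Fin (b + 2) | hh (k, s) = hh r + 1} =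
        {r : Fin K × Fin (b + 2) | ((r.1 : ℕ) = k ∧ (s : ℕ) = r.2 + 1) ∨
          ((k : ℕ) = r.1 + 1 ∧ ((r.2 : ℕ) = b + 1 ∧ (s : ℕ) = 0))} := by
      ext r
      simp only [Set.mem_ofPred_eq]
      rw [hh_succ]
      simp only []
      omega
    rw [e, nc_prev k (fun x => (s : ℕ) = x + 1) (fun x => x = b + 1 ∧ (s : ℕ) = 0)]
    by_cases h : (s : ℕ) = 0
    · rw [card_Icc (b + 2) 0 0 (fun x => (s : ℕ) = x + 1) (by omega) (by intro x hx; omega),
        card_Icc (b + 2) (b + 1) (b + 2) (fun x => x = b + 1 ∧ (s : ℕ) = 0) (by omega)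
          (by intro x hx; omega),
        if_pos h]
      split_ifs <;> omega
    · rw [card_Icc (b + 2) (s - 1) s (fun x => (s : ℕ) = x + 1) (by omega)
          (by intro x hx; omega),
        card_Icc (b + 2) 0 0 (fun x => x = b + 1 ∧ (s : ℕ) = 0) (by omega) (by intro x hx; omega),
        if_neg h]
      split_ifs <;> omega
  have e3 : {r : Fin K × Fin (b + 2) | ((r.1 : ℕ) = k ∧ ((r.2 : ℕ) = 0 ∨ (s : ℕ) = b + 1)) ∨
      ((k : ℕ) = r.1 + 1 ∧ (s : ℕ) = 0 ∧ (r.2 : ℕ) = b + 1)}.ncard =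
      (if (s : ℕ) = b + 1 then b + 2 else 1) +
        (if (s : ℕ) = 0 then (if 0 < (k : ℕ) then 1 else 0) else 0) := by
    rw [nc_prev k (fun x => x = 0 ∨ (s : ℕ) = b + 1) (fun x => (s : ℕ) = 0 ∧ x = b + 1)]
    congr 1
    · by_cases h : (s : ℕ) = b + 1
      · rw [card_Icc (b + 2) 0 (b + 2) (fun x => x = 0 ∨ (s : ℕ) = b + 1) (by omega)
          (by intro x hx; omega), if_pos h]
        omega
      · rw [card_Icc (b + 2) 0 1 (fun x => x = 0 ∨ (s : ℕ) = b + 1) (by omega)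
          (by intro x hx; omega), if_neg h]
    · by_cases h : (s : ℕ) = 0
      · rw [card_Icc (b + 2) (b + 1) (b + 2) (fun x => (s : ℕ) = 0 ∧ x = b + 1) (by omega)
          (by intro x hx; omega), if_pos h]
        split_ifs <;> omega
      · rw [card_Icc (b + 2) 0 0 (fun x => (s : ℕ) = 0 ∧ x = b + 1) (by omega)
          (by intro x hx; omega), if_neg h]
        split_ifs <;> omega
  have e4 : {r : Fin K × Fin (b + 2) | ((k : ℕ) = r.1 ∧ ((s : ℕ) = 0 ∨ (r.2 : ℕ) = b + 1)) ∨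
      ((r.1 : ℕ) = k + 1 ∧ (r.2 : ℕ) = 0 ∧ (s : ℕ) = b + 1)}.ncard =
      (if (s : ℕ) = 0 then b + 2 else 1) +
        (if (s : ℕ) = b + 1 then (if (k : ℕ) + 1 < K then 1 else 0) else 0) := by
    have e : {r : Fin K × Fin (b + 2) | ((k : ℕ) = r.1 ∧ ((s : ℕ) = 0 ∨ (r.2 : ℕ) = b + 1)) ∨
        ((r.1 : ℕ) = k + 1 ∧ (r.2 : ℕ) = 0 ∧ (s : ℕ) = b + 1)} =
        {r : Fin K × Fin (b + 2) | ((r.1 : ℕ) = k ∧ ((s : ℕ) = 0 ∨ (r.2 : ℕ) = b + 1)) ∨
        ((r.1 : ℕ) = k + 1 ∧ ((r.2 : ℕ) = 0 ∧ (s : ℕ) = b + 1))} := by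
      ext r
      simp only [Set.mem_ofPred_eq]
      omega
    rw [e, nc_next k (fun x => (s : ℕ) = 0 ∨ x = b + 1) (fun x => x = 0 ∧ (s : ℕ) = b + 1)]
    congr 1
    · by_cases h : (s : ℕ) = 0
      · rw [card_Icc (b + 2) 0 (b + 2) (fun x => (s : ℕ) = 0 ∨ x = b + 1) (by omega)
          (by intro x hx; omega), if_pos h]
        omega
      · rw [card_Icc (b + 2) (b + 1) (b + 2) (fun x => (s : ℕ) = 0 ∨ x = b + 1) (by omega)
          (by intro x hx; omega), if_neg h]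
        omega
    · by_cases h : (s : ℕ) = b + 1
      · rw [card_Icc (b + 2) 0 1 (fun x => x = 0 ∧ (s : ℕ) = b + 1) (by omega)
          (by intro x hx; omega), if_pos h]
      · rw [card_Icc (b + 2) 0 0 (fun x => x = 0 ∧ (s : ℕ) = b + 1) (by omega)
          (by intro x hx; omega), if_neg h]
        split_ifs <;> omega
  have e5 : {r : Fin K × Fin (b + 2) | False}.ncard = 0 := by
    simp
  rw [e1, e2, e3, e4, e5]
  unfold ee
  simp only []
  split_ifs <;> omega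

theorem tube4 (hR : Raise 2 4 6) (hF : FillStmt) : Tube 4 := by
  intro β K
  rcases Nat.eq_zero_or_pos K with rfl | hK
  · refine ⟨0, by omega, ?_⟩
    simpa using rz_zero
  · refine ⟨4 * K * β + 8 * 6, ?_, assemble 4 6 hR hF β K hK (F4 K β) (F4_deg K β)⟩
    have : cap 4 = 2 := rfl
    rw [this]
    have e : 2 * (4 * K * β + 8 * 6) = 8 * K * β + 96 := by ring
    omega

end PDS.H50
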